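import Pool.Agent.Helper90.MZ.StmtsC

/-!
# MP_79eb7e_lc, module NF: classes above `z` come from `b ∪ z`
-/

set_option autoImplicit false

namespace Pool.Agent.Helper90.MZ

open Pool.Agent.Helper90.TS

variable {V G : Type} [Group G] [MulAction G V] {X : Ctx V G}

/-- there is a model atomic over any countable set -/
theorem nf_atm (hMDLB : ST_MDLB) (hPRIM : ST_PRIM) {A : Set V} (hA : A.Countable) :
    ∃ N, Atm X A N := by
  obtain ⟨K, hK, hAK, _⟩ := (hMDLB V G X).2.1 A ∅ A le_rfl hA Set.countable_empty si_empty_right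
  obtain ⟨N, _, hN⟩ := hPRIM V G X A K hK hAK
  exact ⟨N, hN⟩

/-- the three models, `N'` containing `f` -/
theorem nf_models (hDOM : ST_DOM) (hPRX : ST_PRX) (hMDLB : ST_MDLB) (hPRIM : ST_PRIM)
    (hATMB : ST_ATMB) (hISLB : ST_ISLB) {M0 u v : Set V} (hM0 : Mdl X M0) (hu : u.Countable)
    (hv : v.Countable) (hvu : SI X M0 v u) {ι : Type} [Finite ι] {f : ι → V}
    (hf : Isl X (M0 ∪ u ∪ v) f) :
    ∃ Mu Mv N', Atm X (M0 ∪ u) Mu ∧ Atm X (M0 ∪ v) Mv ∧ Atm X (Mu ∪ Mv) N' ∧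
      Set.range f ⊆ N' ∧ SI X M0 v Mu := by
  have cM0 : M0.Countable := hM0.1
  obtain ⟨Mu, hMu⟩ := nf_atm (X := X) hMDLB hPRIM (cM0.union hu)
  obtain ⟨Mv, hMv⟩ := nf_atm (X := X) hMDLB hPRIM (cM0.union hv)
  have cMu : Mu.Countable := hMu.1.1
  have cMv : Mv.Countable := hMv.1.1
  obtain ⟨N', hN'⟩ := nf_atm (X := X) hMDLB hPRIM (cMu.union cMv)
  have h1 : SI X M0 v Mu := (hDOM V G X M0 u v Mu hM0 hu hv hMu hvu).1
  have h2 : SI X M0 Mu v := si_symm cM0 hv cMu h1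
  have h3 : Atm X (M0 ∪ v ∪ Mu) N' := by
    refine hPRX V G X M0 v Mu Mv N' hM0 hv cMu hMv h2 ?_
    rw [Set.union_comm Mv Mu]
    exact hN'
  have hM0Mu : M0 ⊆ Mu := Set.subset_union_left.trans hMu.2.1
  have e1 : M0 ∪ v ∪ Mu = Mu ∪ v := by
    rw [Set.union_comm M0 v, Set.union_assoc, Set.union_eq_self_of_subset_left hM0Mu,
      Set.union_comm]
  rw [e1] at h3
  have h4 : Atm X (M0 ∪ u ∪ v) N' := hPRX V G X M0 u v Mu N' hM0 hu hv hMu hvu h3
  obtain ⟨f', hf', g, hg, hgf⟩ := (hISLB V G X (M0 ∪ u ∪ v) ((cM0.union hu).union hv) ι f).2.2.2.2.1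
    N' h4.1 h4.2.1 hf
  have hgi : g⁻¹ ∈ Fx G (M0 ∪ u ∪ v) := inv_mem hg
  have k1 : Atm X (M0 ∪ u) (tr g⁻¹ Mu) := by
    have := (hATMB V G X (M0 ∪ u) Mu).2.2.1 g⁻¹ hMu
    rwa [tr_eq_of_fx hgi Set.subset_union_left] at this
  have k2 : Atm X (M0 ∪ v) (tr g⁻¹ Mv) := by
    have := (hATMB V G X (M0 ∪ v) Mv).2.2.1 g⁻¹ hMv
    rwa [tr_eq_of_fx hgi (Set.union_subset (Set.subset_union_left.trans Set.subset_union_left)
      Set.subset_union_right)] at this
  have k3 : Atm X (tr g⁻¹ Mu ∪ tr g⁻¹ Mv) (tr g⁻¹ N') := by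
    have := (hATMB V G X (Mu ∪ Mv) N').2.2.1 g⁻¹ hN'
    rwa [tr_union] at this
  refine ⟨tr g⁻¹ Mu, tr g⁻¹ Mv, tr g⁻¹ N', k1, k2, k3, ?_, ?_⟩
  · have e2 : Set.range f = tr g⁻¹ (Set.range f') := by
      rw [← hgf, tr_range, inv_smul_smul]
    rw [e2]
    exact tr_mono _ hf'
  · have := (si_fx (X := X) cM0 hv cMu (g := g⁻¹)
      (fx_anti (Set.subset_union_left.trans Set.subset_union_left) hgi)).2 h1
    rwa [tr_eq_of_fx hgi Set.subset_union_right] at this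

/-- the case of a finite base in `N` -/
theorem nf_core (hNFV : ST_NFV) (hNDP : ST_NDP) (hFDOM : ST_FDOM) (hDOM : ST_DOM)
    (hPRX : ST_PRX) (hSUPB : ST_SUPB) (hSUPU : ST_SUPU) (hMDLB : ST_MDLB) (hPRIM : ST_PRIM)
    (hATMB : ST_ATMB) (hISLB : ST_ISLB) {b M N : Set V} {p q : Ty V} {z : Fin 1 → V}
    (hfew : Few X) (hb : b.Finite) (hp : SR X p) (hpb : p.A ⊆ b) (hM : Mdl X M) (hbM : b ⊆ M)
    (hz : Rl X p M z) (hN : Atm X (M ∪ Set.range z) N) (hq : ENI X q) (hqN : q.A ⊆ N)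
    (hqM : ¬ Sp X M q) : Sup X (b ∪ Set.range z) q := by
  have hqf : q.A.Finite := hq.2.1
  have hqc : q.A.Countable := hqf.countable
  have hbc : b.Countable := hb.countable
  have hMc : M.Countable := hM.1
  have hzc : (Set.range z).Countable := Set.countable_range z
  have hzf : (Set.range z).Finite := Set.finite_range z
  have : Finite q.A := hqf.to_subtype
  have hrf : Set.range (Subtype.val : q.A → V) = q.A := Subtype.range_coe
  have hIsl : Isl X (M ∪ Set.range z) (Subtype.val : q.A → V) := by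
    refine (hATMB V G X (M ∪ Set.range z) N).2.2.2.2.2 hN q.A _ ?_
    rw [hrf]
    exact hqN
  obtain ⟨b0, hb0M, hb0f, hb0⟩ := hFDOM V G X M (Set.range z) hM hzf q.A _ hIsl
  obtain ⟨b', hb'⟩ : ∃ b', b' = b ∪ b0 := ⟨_, rfl⟩
  have hb'f : b'.Finite := by
    rw [hb']
    exact hb.union hb0f
  have hb'c : b'.Countable := hb'f.countable
  have hbb' : b ⊆ b' := by
    rw [hb']
    exact Set.subset_union_left
  have hb0b' : b0 ⊆ b' := by
    rw [hb']
    exact Set.subset_union_right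
  have hb'M : b' ⊆ M := by
    rw [hb']
    exact Set.union_subset hbM hb0M
  obtain ⟨⟨D, hDo, hfD, hDY⟩, hSI⟩ := hb0 b' hb0b' hb'M
  -- the model `M0`
  have cW : (b' ∪ Set.range z ∪ q.A).Countable := (hb'c.union hzc).union hqc
  obtain ⟨M0, hM0, hbM0, hM0W⟩ := (hMDLB V G X).2.1 b (b' ∪ Set.range z ∪ q.A) b le_rfl hbc cW
    (si_self_left hbc cW le_rfl)
  have cM0 : M0.Countable := hM0.1
  -- independence
  have i1 : SI X b (Set.range z) M := by
    have hpc : p.A.Countable := hbc.mono hpb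
    exact si_up hpc hzc hMc hz.2 hpb (hbM.trans Set.subset_union_right)
  have i2 : SI X b (Set.range z) b' := si_right hbc hzc hMc hb'M i1
  have i3 : SI X b M0 (b' ∪ Set.range z) := si_right hbc cM0 cW Set.subset_union_left hM0W
  have i4 : SI X b' M0 (Set.range z) := by
    have := ((si_union hbc cM0 hb'c hzc).1 i3).2
    rwa [Set.union_eq_self_of_subset_left hbb'] at this
  have i5 : SI X b' (Set.range z) M0 := si_symm hb'c cM0 hzc i4
  have i6 : SI X b (Set.range z) (b' ∪ M0) := si_trans' hzc hb'c cM0 hbb' i2 i5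
  have i7 : SI X M0 (Set.range z) b' := by
    have c1 : (b' ∪ M0).Countable := hb'c.union cM0
    have := si_up hbc hzc c1 i6 hbM0 (Set.subset_union_right.trans Set.subset_union_right)
    exact si_right cM0 hzc c1 Set.subset_union_left this
  have i8 : SI X M0 b' (Set.range z) := si_symm cM0 hzc hb'c i7
  -- `f` is isolated over `M0 ∪ b' ∪ z`
  have e1 : b' ∪ Set.range z ∪ M0 = M0 ∪ b' ∪ Set.range z := by
    rw [Set.union_comm, Set.union_assoc]
  have hIsl' : Isl X (M0 ∪ b' ∪ Set.range z) (Subtype.val : q.A → V) := by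
    refine ⟨D, ov_mono X ?_ hDo, hfD, ?_⟩
    · rw [← e1]
      exact Set.subset_union_left
    · intro x hx
      have := (hDY M0 cM0 i4).2 x hx
      rwa [e1] at this
  obtain ⟨Mu, Mv, N', hMu, hMv, hN', hfN', i9⟩ := nf_models hDOM hPRX hMDLB hPRIM hATMB hISLB hM0
    hb'c hzc i7 hIsl'
  rw [hrf] at hfN'
  have cMu : Mu.Countable := hMu.1.1
  have hSpN' : Sp X N' q := (hSUPU V G X).2.2.2.2.1 N' q hq.1 hfN'
  have hM0Mu : M0 ⊆ Mu := Set.subset_union_left.trans hMu.2.1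
  have hb'Mu : b' ⊆ Mu := Set.subset_union_right.trans hMu.2.1
  -- `Mu` does not support `q`
  have hnMu : ¬ Sp X Mu q := by
    intro hSp
    have j1 : SI X b (Set.range z) M0 :=
      si_right hbc hzc (hb'c.union cM0) Set.subset_union_right i6
    have j2 : SI X b (Set.range z) (M0 ∪ Mu) := si_trans' hzc cM0 cMu hbM0 j1 i9
    have j3 : SI X b (Set.range z) Mu :=
      si_right hbc hzc (cM0.union cMu) Set.subset_union_right j2
    have j4 : SI X b' (Set.range z) Mu :=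
      si_up hbc hzc cMu j3 hbb' (hb'Mu.trans Set.subset_union_right)
    have j5 : SI X b' Mu (Set.range z) := si_symm hb'c hzc cMu j4
    have j6 := (hDY Mu cMu j5).1
    rw [hrf] at j6
    have j7 : SI X b' Mu q.A := si_right hb'c cMu (hzc.union hqc) Set.subset_union_right j6
    have j8 : Sup X b' q := hSUPB V G X b' Mu q hb'Mu hMu.1 hq.1 j7 hSp
    exact hqM (j8 M hM hb'M)
  have hMvq : Sp X Mv q := by
    rcases hNDP V G X M0 Mu Mv N' b' (Set.range z) q hfew hM0 hb'f hzf hMu hMv i8 hN' hq hSpN'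
      with h | h
    · exact absurd h hnMu
    · exact h
  have hM0q : ¬ Sp X M0 q := fun h => hnMu ((hSUPU V G X).1 M0 Mu q hM0Mu h)
  have i10 : SI X b M0 (Set.range z ∪ q.A) := by
    refine si_right hbc cM0 cW ?_ hM0W
    rw [Set.union_assoc]
    exact Set.subset_union_right
  exact hNFV V G X b M0 Mv q z hfew hb hM0 hbM0 hq i10 hMv hMvq hM0q

theorem st_NF (hNFV : ST_NFV) (hNDP : ST_NDP) (hFDOM : ST_FDOM) (hDOM : ST_DOM)
    (hPRX : ST_PRX) (hSUPB : ST_SUPB) (hSUPU : ST_SUPU) (hENIU : ST_ENIU) (_ : ST_INVA)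
    (hMDLB : ST_MDLB) (hPRIM : ST_PRIM) (hATMB : ST_ATMB) (hISLB : ST_ISLB) (_ : ST_NOEQ)
    (_ : ST_RLB) : ST_NF := by
  intro V G _ _ X b M N p q z hfew hb hp hpb hM hbM hz hN hq hqN hqM
  obtain ⟨q', hq', hq'N, hq'f, hq'q, hqq'⟩ := (hSUPU V G X).2.2.2.2.2.1 N q hq.1 hqN
  have hE : ENI X q' := (hENIU V G X q).2.2.2.1 hq q' hq' hq'f hqq'
  have hM' : ¬ Sp X M q' := fun h => hqM ((hSUPU V G X).2.2.1 M q' q hq' hq.1 hq'q h)
  have := nf_core hNFV hNDP hFDOM hDOM hPRX hSUPB hSUPU hMDLB hPRIM hATMB hISLB hfew hb hp hpb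
    hM hbM hz hN hE hq'N hM'
  exact (hSUPU V G X).2.2.2.1 (b ∪ Set.range z) q' q hq' hq.1 hq'q this

end Pool.Agent.Helper90.MZ
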