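import Pool.Agent.Helper90.MZ.StmtsC

/-! Module NTG. -/

set_option autoImplicit false

namespace Pool.Agent.Helper90.MZ

open Pool.Agent.Helper90.TS

/-- recursive choice along a well-founded linear order -/
theorem ntg_rec {κ β V : Type} [LinearOrder κ] [WellFoundedLT κ] [Countable κ] (Y : Set V)
    (hY : Y.Countable) (P : κ → Set V → β → Prop) (S : κ → β → Set V)
    (hS : ∀ i b, (S i b).Countable) (hP : ∀ i (C : Set V), C.Countable → ∃ b, P i C b) :
    ∃ g : κ → β, ∀ i, P i (Y ∪ ⋃ j ∈ {j | j < i}, S j (g j)) (g i) := by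
  classical
  rcases isEmpty_or_nonempty κ with hκ | ⟨⟨i0⟩⟩
  · exact ⟨fun i => isEmptyElim i, fun i => isEmptyElim i⟩
  obtain ⟨b0, -⟩ := hP i0 ∅ Set.countable_empty
  let f : κ → Set V → β := fun i C => if h : ∃ b, P i C b then h.choose else b0
  have hf : ∀ i (C : Set V), C.Countable → P i C (f i C) := by
    intro i C hC
    have h := hP i C hC
    simp only [f, dif_pos h]
    exact h.choose_spec
  let F : ∀ i : κ, (∀ j : κ, j < i → β) → β :=
    fun i ih => f i (Y ∪ ⋃ j, ⋃ (h : j < i), S j (ih j h))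
  let g : κ → β := (wellFounded_lt (α := κ)).fix F
  have hg : ∀ i, g i = f i (Y ∪ ⋃ j ∈ {j | j < i}, S j (g j)) := by
    intro i
    have := (wellFounded_lt (α := κ)).fix_eq F i
    exact this
  refine ⟨g, fun i => ?_⟩
  have hc : (Y ∪ ⋃ j ∈ {j | j < i}, S j (g j)).Countable :=
    hY.union (Set.Countable.biUnion (Set.to_countable _) fun j _ => hS j (g j))
  have := hf i _ hc
  rw [← hg i] at this
  exact this

variable {V G : Type} [Group G] [MulAction G V] {X : Ctx V G}

theorem ntg_core {b Yc Yo Yo' E E' : Set V} (hb : b.Countable) (hYc : Yc.Countable)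
    (hYo : Yo.Countable) (hYo' : Yo'.Countable) (hE : E.Countable) (hE' : E'.Countable)
    (h1 : SI X (b ∪ Yc) Yo' Yo) (h2 : SI X (b ∪ Yc ∪ Yo') E' Yo)
    (h3 : SI X (b ∪ Yc ∪ Yo) E (Yo' ∪ E')) (h4 : SI X b E Yc) : SI X b E E' := by
  have hA : (b ∪ Yc).Countable := hb.union hYc
  have a1 : SI X (b ∪ Yc) (Yo' ∪ E') Yo := si_transl hA hYo' hYo hE' h1 h2
  have a2 : SI X (b ∪ Yc ∪ Yo) (Yo' ∪ E') E :=
    si_symm (hA.union hYo) hE (hYo'.union hE') h3
  have a3 : SI X (b ∪ Yc) (Yo' ∪ E') (Yo ∪ E) :=
    si_trans hA (hYo'.union hE') hYo hE a1 a2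
  have a4 : SI X (b ∪ Yc) E' E :=
    si_left Set.subset_union_right
      (si_right hA (hYo'.union hE') (hYo.union hE) Set.subset_union_right a3)
  have a5 : SI X b E (Yc ∪ E') := si_trans hb hE hYc hE' h4 (si_symm hA hE' hE a4)
  exact si_right hb hE (hYc.union hE') Set.subset_union_right a5

theorem ntg_rl_fx {p : Ty V} {B : Set V} {y : Fin 1 → V} {g : G} (hA : p.A.Countable)
    (hB : B.Countable) (hg : g ∈ Fx G p.A) (h : Rl X p B y) : Rl X p (tr g B) (g • y) := by
  refine ⟨eqv_trans h.1 ⟨g, hg, rfl⟩, ?_⟩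
  rw [← tr_range]
  exact (si_fx hA (Set.countable_range y) hB hg).2 h.2

theorem st_NTG (hIND : ST_IND) (hRLB : ST_RLB) : ST_NTG := by
  intro V G _ _ X b p e n hp hb hpb he hei
  have hpA : p.A.Countable := hp.cnt
  have hpb' : p.A ∪ b = b := Set.union_eq_self_of_subset_left hpb
  -- the independent realizations
  obtain ⟨y, hy⟩ := ntg_rec (κ := Fin n) b hb (fun _ C z => Rl X p C z)
    (fun _ z => Set.range z) (fun _ z => Set.countable_range z)
    (fun _ C hC => (hRLB V G X p hp C hC).1)
  have hyb : ∀ i, Rl X p b (y i) := by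
    intro i
    refine (hRLB V G X p hp _ (hb.union (Set.Countable.biUnion (Set.to_countable _) fun j _ =>
      Set.countable_range (y j)))).2.2.1 (y i) (hy i) b ?_
    exact Set.subset_union_left.trans Set.subset_union_right
  have hyI : Ind X b (fun i => Set.range (y i)) := by
    refine (hIND V G X b hb).2.1 n _ (fun i => Set.countable_range _) fun i => ?_
    have hc : (⋃ j ∈ {j | j < i}, Set.range (y j)).Countable :=
      Set.Countable.biUnion (Set.to_countable _) fun j _ => Set.countable_range (y j)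
    have := (hRLB V G X p hp b hb).2.2.2.2.1 (y i) _ hc (hy i)
    rwa [hpb'] at this
  -- conjugates
  have hρ : ∀ i j : Fin n, ∃ ρ : G, ρ ∈ Fx G b ∧ (i < j → ρ • e 0 = y i ∧ ρ • e 1 = y j) := by
    intro i j
    by_cases hij : i < j
    · obtain ⟨g, hg, hge⟩ := (hRLB V G X p hp b hb).2.1 (e 0) (y i) (he 0) (hyb i)
      rw [hpb'] at hg
      have h1 : Rl X p (b ∪ Set.range (e 0)) (e 1) := by
        refine (hRLB V G X p hp b hb).2.2.2.1 (e 1) _ (Set.countable_range _) (he 1) ?_
        rw [hpb']
        exact hei 1 0 (by decide)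
      have h2 : Rl X p (b ∪ Set.range (y i)) (g • e 1) := by
        have := ntg_rl_fx hpA (hb.union (Set.countable_range _)) (fx_anti hpb hg) h1
        rwa [tr_union, tr_fx hg, tr_range, hge] at this
      have h3 : Rl X p (b ∪ Set.range (y i)) (y j) := by
        refine (hRLB V G X p hp _ (hb.union (Set.Countable.biUnion (Set.to_countable _)
          fun j _ => Set.countable_range (y j)))).2.2.1 (y j) (hy j) _ ?_
        refine Set.union_subset (Set.subset_union_left.trans Set.subset_union_right) ?_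
        intro x hx
        exact Or.inr (Or.inr (Set.mem_biUnion (show i ∈ {k | k < j} from hij) hx))
      obtain ⟨h, hh, hhe⟩ := (hRLB V G X p hp _ (hb.union (Set.countable_range (y i)))).2.1
        (g • e 1) (y j) h2 h3
      have hhb : h ∈ Fx G b := fx_anti
        (Set.subset_union_left.trans Set.subset_union_right) hh
      have hhy : h • y i = y i := fx_smul hh
        (Set.subset_union_right.trans Set.subset_union_right)
      refine ⟨h * g, mul_mem hhb hg, fun _ => ⟨?_, ?_⟩⟩
      · rw [mul_smul, hge, hhy]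
      · rw [mul_smul, hhe]
    · exact ⟨1, one_mem _, fun h => absurd h hij⟩
  choose ρ hρb hρe using hρ
  let YS : Set (Fin n) → Set V := fun I => ⋃ i ∈ I, Set.range (y i)
  have hYS : ∀ I, (YS I).Countable := fun I =>
    Set.Countable.biUnion (Set.to_countable _) fun j _ => Set.countable_range (y j)
  have hYm : ∀ I J : Set (Fin n), I ⊆ J → YS I ⊆ YS J := fun I J h =>
    Set.biUnion_subset_biUnion_left h
  have hYu : ∀ I J : Set (Fin n), YS (I ∪ J) = YS I ∪ YS J := fun I J =>
    Set.biUnion_union I J _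
  obtain ⟨k, hk⟩ := ntg_rec (κ := Fin n ×ₗ Fin n) (β := G) (YS Set.univ) (hYS _)
    (fun q C g => g ∈ Fx G (b ∪ YS {(ofLex q).1, (ofLex q).2}) ∧
      SI X (b ∪ YS {(ofLex q).1, (ofLex q).2})
        (tr g (Set.range (ρ (ofLex q).1 (ofLex q).2 • e 2))) C)
    (fun q g => tr g (Set.range (ρ (ofLex q).1 (ofLex q).2 • e 2)))
    (fun q g => tr_countable _ (Set.countable_range _))
    (fun q C hC => si_ex (hb.union (hYS _)) (Set.countable_range _) hC)
  let τ : Fin n → Fin n → G := fun i j => k (toLex (i, j)) * ρ i j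
  let E : Fin n → Fin n → Set V := fun i j => Set.range (τ i j • e 2)
  have hE : ∀ i j, E i j = tr (k (toLex (i, j))) (Set.range (ρ i j • e 2)) := by
    intro i j
    simp only [E, τ, mul_smul, tr_range]
  have hEc : ∀ i j, (E i j).Countable := fun i j => Set.countable_range _
  have hkF : ∀ i j, k (toLex (i, j)) ∈ Fx G (b ∪ YS {i, j}) := fun i j =>
    (hk (toLex (i, j))).1
  have hkb : ∀ i j, k (toLex (i, j)) ∈ Fx G b := fun i j => fx_anti Set.subset_union_left (hkF i j)
  have hτb : ∀ i j, τ i j ∈ Fx G b := fun i j => mul_mem (hkb i j) (hρb i j)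
  have hyin : ∀ (i : Fin n) (I : Set (Fin n)), i ∈ I → Set.range (y i) ⊆ YS I := by
    intro i I hi x hx
    exact Set.mem_biUnion hi hx
  have hτe : ∀ i j, i < j → τ i j • e 0 = y i ∧ τ i j • e 1 = y j := by
    intro i j hij
    constructor
    · simp only [τ, mul_smul, (hρe i j hij).1]
      exact fx_smul (hkF i j) ((hyin i _ (by simp)).trans Set.subset_union_right)
    · simp only [τ, mul_smul, (hρe i j hij).2]
      exact fx_smul (hkF i j) ((hyin j _ (by simp)).trans Set.subset_union_right)
  have hF3 : ∀ i j, SI X (b ∪ YS {i, j}) (E i j) (YS Set.univ ∪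
      ⋃ q ∈ {q | q < toLex (i, j)}, tr (k q) (Set.range (ρ (ofLex q).1 (ofLex q).2 • e 2))) := by
    intro i j
    rw [hE]
    exact (hk (toLex (i, j))).2
  have hcC : ∀ i j, (YS Set.univ ∪
      ⋃ q ∈ {q | q < toLex (i, j)}, tr (k q) (Set.range (ρ (ofLex q).1 (ofLex q).2 • e 2)) :
        Set V).Countable := fun i j => (hYS _).union (Set.Countable.biUnion (Set.to_countable _)
      fun q _ => tr_countable _ (Set.countable_range _))
  have hF1 : ∀ i j, i < j → SI X b (E i j) (Set.range (y i)) ∧ SI X b (E i j) (Set.range (y j)) := by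
    intro i j hij
    have a0 := (si_fx (X := X) hb (Set.countable_range (e 2)) (Set.countable_range (e 0))
      (hτb i j)).2 (hei 2 0 (by decide))
    have a1 := (si_fx (X := X) hb (Set.countable_range (e 2)) (Set.countable_range (e 1))
      (hτb i j)).2 (hei 2 1 (by decide))
    rw [tr_range, tr_range, (hτe i j hij).1] at a0
    rw [tr_range, tr_range, (hτe i j hij).2] at a1
    exact ⟨a0, a1⟩
  have key : ∀ i j k' l, i < j → k' < l → toLex (k', l) < toLex (i, j) →
      SI X b (E i j) (E k' l) := by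
    intro i j k' l hij hkl hlt
    have hne : (k', l) ≠ (i, j) := fun h => by
      rw [h] at hlt
      exact lt_irrefl _ hlt
    let Cm : Set (Fin n) := {i, j} ∩ {k', l}
    let O : Set (Fin n) := {i, j} \ {k', l}
    let O' : Set (Fin n) := {k', l} \ {i, j}
    have eO : YS Cm ∪ YS O = YS {i, j} := by
      rw [← hYu]
      congr 1
      exact Set.inter_union_sdiff _ _
    have eO' : YS Cm ∪ YS O' = YS {k', l} := by
      rw [← hYu]
      congr 1
      rw [show Cm = {k', l} ∩ {i, j} from Set.inter_comm _ _]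
      exact Set.inter_union_sdiff _ _
    have hCm : Cm ⊆ {i} ∨ Cm ⊆ {j} := by
      by_contra hc
      push Not at hc
      obtain ⟨h1, h2⟩ := hc
      obtain ⟨x, hx, hxi⟩ := Set.not_subset.1 h1
      obtain ⟨x', hx', hxj⟩ := Set.not_subset.1 h2
      have hx1 : x = j := by
        rcases hx.1 with h | h
        · exact absurd h hxi
        · exact h
      have hx2 : x' = i := by
        rcases hx'.1 with h | h
        · exact h
        · exact absurd h hxj
      subst hx1 hx2
      have hj := hx.2
      have hi := hx'.2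
      simp only [Set.mem_insert_iff, Set.mem_singleton_iff] at hi hj
      rcases hi with hi | hi <;> rcases hj with hj | hj
      · exact absurd (hi.trans hj.symm) hij.ne
      · exact hne (by rw [hi, hj])
      · rw [hi, hj] at hij
        exact absurd hij (not_lt.2 hkl.le)
      · exact absurd (hi.trans hj.symm) hij.ne
    refine ntg_core (Yc := YS Cm) (Yo := YS O) (Yo' := YS O') hb (hYS _) (hYS _) (hYS _)
      (hEc _ _) (hEc _ _) ?_ ?_ ?_ ?_
    · have h1 : SI X b (YS O') (YS (Cm ∪ O)) := by
        refine hyI O' (Cm ∪ O) ?_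
        rw [Set.disjoint_left]
        rintro x ⟨-, hx⟩ (hx' | hx')
        · exact hx hx'.1
        · exact hx hx'.1
      rw [hYu] at h1
      exact ((si_union hb (hYS _) (hYS _) (hYS _)).1 h1).2
    · rw [Set.union_assoc, eO']
      refine si_right (hb.union (hYS _)) (hEc _ _) (hcC k' l) ?_ (hF3 k' l)
      exact (hYm _ _ (Set.subset_univ _)).trans Set.subset_union_left
    · rw [Set.union_assoc, eO]
      refine si_right (hb.union (hYS _)) (hEc _ _) (hcC i j) ?_ (hF3 i j)
      refine Set.union_subset ((hYm _ _ (Set.subset_univ _)).trans Set.subset_union_left) ?_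
      intro x hx
      rw [hE] at hx
      exact Or.inr (Set.mem_biUnion (show toLex (k', l) ∈ {q | q < toLex (i, j)} from hlt) hx)
    · rcases hCm with h | h
      · refine si_right hb (hEc _ _) (Set.countable_range (y i)) ?_ (hF1 i j hij).1
        intro x hx
        obtain ⟨c, hc, hx⟩ := Set.mem_iUnion₂.1 hx
        rw [Set.mem_singleton_iff.1 (h hc)] at hx
        exact hx
      · refine si_right hb (hEc _ _) (Set.countable_range (y j)) ?_ (hF1 i j hij).2
        intro x hx
        obtain ⟨c, hc, hx⟩ := Set.mem_iUnion₂.1 hx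
        rw [Set.mem_singleton_iff.1 (h hc)] at hx
        exact hx
  refine ⟨y, τ, hyb, hyI, hτb, hτe, fun i j k' l hij hkl hne => ?_⟩
  rcases lt_trichotomy (toLex (i, j)) (toLex (k', l)) with h | h | h
  · exact si_symm hb (hEc _ _) (hEc _ _) (key k' l i j hkl hij h)
  · exact absurd (toLex.injective h) hne
  · exact key i j k' l hij hkl h

end Pool.Agent.Helper90.MZ
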